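import Pool.Agent.Lib.MP_3ea60f_ntH91.Dens

/-!
# MP_3ea60f_nt: the prime `q` of Q1 is not small for almost all `n`
-/

namespace Pool.Agent.Results.MP_3ea60f_nt.TwinShift

open Filter Topology

/-- `p_k`, the `k`-th prime: `p_1 = 2`, `p_2 = 3`, `p_3 = 5`, and so on. -/
noncomputable def pr (k : ℕ) : ℕ := Nat.nth Nat.Prime (k - 1)

/-- (1) For every `ε > 0` there is a constant `C` such that for all `N ≥ 2`, `B ≥ 3` at most
`C B N / (log N (log B) ^ (2 - ε))` of the integers `n ≤ N` have a prime `q ≤ B`, `q < n`, with `q + 2` and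
`p_{n-q} + q + 1` prime. (2) For `0 < ε ≤ 1` the proportion of the `n ≤ N` which have such a `q` with
`q ≤ log N (log log N) ^ (2 - ε)` tends to `0`. (3) There is a constant `C` such that for all `N ≥ 2` and all `B` at
most `C B N / log N` of the `n ≤ N` have an integer `q` (prime or not), `1 ≤ q ≤ B`, `q < n`, for which
`p_{n-q} + q + 1` is prime. (4) If there are only finitely many twin primes, then the set of the `n` which have a
prime `q < n` with `q + 2` and `p_{n-q} + q + 1` prime has natural density `0`. -/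
theorem result :
    (∀ ε : ℝ, 0 < ε → ∃ C : ℝ, 0 < C ∧ ∀ N B : ℕ, 2 ≤ N → 3 ≤ B →
      (({n | n ≤ N ∧ ∃ q : ℕ, q.Prime ∧ (q + 2).Prime ∧ q ≤ B ∧ q < n ∧
        (pr (n - q) + q + 1).Prime} : Set ℕ).ncard : ℝ) ≤
        C * B * N / (Real.log N * Real.log B ^ (2 - ε))) ∧
    (∀ ε : ℝ, 0 < ε → ε ≤ 1 → Tendsto (fun N : ℕ =>
      (({n | n ≤ N ∧ ∃ q : ℕ, q.Prime ∧ (q + 2).Prime ∧
        (q : ℝ) ≤ Real.log N * Real.log (Real.log N) ^ (2 - ε) ∧ q < n ∧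
        (pr (n - q) + q + 1).Prime} : Set ℕ).ncard : ℝ) / N) atTop (𝓝 0)) ∧
    (∃ C : ℝ, 0 < C ∧ ∀ N B : ℕ, 2 ≤ N →
      (({n | n ≤ N ∧ ∃ q : ℕ, 1 ≤ q ∧ q ≤ B ∧ q < n ∧ (pr (n - q) + q + 1).Prime} :
        Set ℕ).ncard : ℝ) ≤ C * B * N / Real.log N) ∧
    ({q : ℕ | q.Prime ∧ (q + 2).Prime}.Finite →
      Tendsto (fun N : ℕ =>
        (({n | n ≤ N ∧ ∃ q : ℕ, q.Prime ∧ q < n ∧ (q + 2).Prime ∧ (pr (n - q) + q + 1).Prime} :
          Set ℕ).ncard : ℝ) / N) atTop (𝓝 0)) :=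
  ⟨MP3ea60f.bound_twin, MP3ea60f.density_twin, MP3ea60f.bound, MP3ea60f.finite_twins⟩

end Pool.Agent.Results.MP_3ea60f_nt.TwinShift
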